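import Pool.Agent.H12.ST.Num
import Pool.Agent.H12.ST.Defs

set_option autoImplicit false

/-!
Parity of the number of rows for an automorphism of prime power order without fixed rows and
columns (prime power version of `H12.ST.even_moved`).
-/

namespace Pool.Agent.H10.FP

open Finset Pool.Agent.H12.ST

variable {R C : Type} [Fintype R] [Fintype C] [DecidableEq R] [DecidableEq C]
  {B : R → C → ℤ} {n f : ℤ}

/-- The cycles of a permutation without fixed points whose `q ^ k`-th power is the identity. -/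
lemma exists_cycles {X : Type} [Fintype X] (σ : Equiv.Perm X) {q k : ℕ}
    (hq : q.Prime) (hσ : σ ^ (q ^ k) = 1) (hfix : ∀ x, σ x ≠ x) :
    ∃ (I : Type) (_ : Fintype I) (_ : DecidableEq I) (rep : I → X) (s : I → ℕ)
      (e : (Σ i : I, Fin (s i)) ≃ X), (∀ y, e y = (σ ^ (y.2 : ℕ)) (rep y.1)) ∧
      (∀ i, (σ ^ s i) (rep i) = rep i) ∧ (∀ i, ∃ a, s i = q ^ (a + 1)) := by
  classical
  let S : Setoid X := Equiv.Perm.SameCycle.setoid σ
  let rep : Quotient S → X := fun i => Quotient.out i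
  let s : Quotient S → ℕ := fun i => Function.minimalPeriod σ (rep i)
  have hper : ∀ x, Function.IsPeriodicPt σ (q ^ k) x := by
    intro x
    rw [Function.IsPeriodicPt, Function.IsFixedPt, Equiv.Perm.iterate_eq_pow, hσ]
    rfl
  have hs : ∀ i, ∃ a, s i = q ^ (a + 1) := by
    intro i
    obtain ⟨b, -, hb⟩ := (Nat.dvd_prime_pow hq).1 (hper (rep i)).minimalPeriod_dvd
    rcases b with _ | a
    · exfalso
      rw [pow_zero] at hb
      exact hfix _ (Function.minimalPeriod_eq_one_iff_isFixedPt.1 hb)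
    · exact ⟨a, hb⟩
  have hs0 : ∀ i, 0 < s i := by
    intro i
    obtain ⟨a, ha⟩ := hs i
    rw [ha]
    exact pow_pos hq.pos _
  have hsp : ∀ i, (σ ^ s i) (rep i) = rep i := by
    intro i
    have h1 := Function.isPeriodicPt_minimalPeriod σ (rep i)
    rw [Function.IsPeriodicPt, Function.IsFixedPt, Equiv.Perm.iterate_eq_pow] at h1
    exact h1
  let g : (Σ i : Quotient S, Fin (s i)) → X := fun y => (σ ^ (y.2 : ℕ)) (rep y.1)
  have hg : Function.Bijective g := by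
    constructor
    · rintro ⟨i, m⟩ ⟨i', m'⟩ h
      have h1 : (σ ^ (m : ℕ)) (rep i) = (σ ^ (m' : ℕ)) (rep i') := h
      have h2 : σ.SameCycle (rep i) (rep i') := by
        have a1 : σ.SameCycle (rep i) ((σ ^ (m : ℕ)) (rep i)) := ⟨(m : ℕ), by simp⟩
        have a2 : σ.SameCycle (rep i') ((σ ^ (m' : ℕ)) (rep i')) := ⟨(m' : ℕ), by simp⟩
        rw [h1] at a1
        exact a1.trans a2.symm
      have h3 : i = i' := by
        have : (Quotient.out i) ≈ (Quotient.out i') := h2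
        exact Quotient.out_equiv_out.1 this
      subst h3
      have h4 : (m : ℕ) = m' := by
        rw [← Equiv.Perm.iterate_eq_pow, ← Equiv.Perm.iterate_eq_pow] at h1
        exact (Function.iterate_eq_iterate_iff_of_lt_minimalPeriod m.2 m'.2).1 h1
      rw [Fin.ext h4]
    · intro x
      have h1 : σ.SameCycle (rep (Quotient.mk S x)) x := by
        have : Quotient.out (Quotient.mk S x) ≈ x := Quotient.mk_out _
        exact this
      obtain ⟨j, hj⟩ := h1
      have hq0 : (0 : ℤ) < s (Quotient.mk S x) := by exact_mod_cast hs0 _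
      have h3 := Int.emod_nonneg j hq0.ne'
      have h4 := Int.emod_lt_of_pos j hq0
      obtain ⟨m, hm⟩ := Int.eq_ofNat_of_zero_le h3
      have h2 : (σ ^ j) (rep (Quotient.mk S x)) = (σ ^ m) (rep (Quotient.mk S x)) := by
        have h5 : j = (m : ℤ) + (s (Quotient.mk S x) : ℤ) * (j / (s (Quotient.mk S x) : ℤ)) := by
          have := Int.emod_add_mul_ediv j (s (Quotient.mk S x))
          rw [hm] at this
          exact this.symm
        rw [h5, zpow_add, zpow_mul, Equiv.Perm.mul_apply, zpow_natCast, zpow_natCast]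
        congr 1
        have h6 : ∀ t : ℤ, ((σ ^ s (Quotient.mk S x)) ^ t) (rep (Quotient.mk S x)) =
            rep (Quotient.mk S x) := by
          intro t
          exact Equiv.Perm.zpow_apply_eq_self_of_apply_eq_self (hsp _) t
        exact h6 _
      rw [hm] at h4
      refine ⟨⟨Quotient.mk S x, ⟨m, by exact_mod_cast h4⟩⟩, ?_⟩
      change (σ ^ m) (rep (Quotient.mk S x)) = x
      rw [← h2]
      exact hj
  exact ⟨Quotient S, Fintype.ofFinite _, Classical.decEq _, rep, s, Equiv.ofBijective g hg,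
    fun y => rfl, hsp, hs⟩

/-- The twisted rows. -/
noncomputable def Ph (B : R → C → ℤ) (σ : Equiv.Perm R) (ζ : ℂ) (s : ℕ) (r : R) (c : C) :
    ℂ := ∑ m ∈ range s, ζ ^ m * (B ((σ ^ m) r) c : ℂ)

omit [Fintype R] [Fintype C] [DecidableEq R] [DecidableEq C] in
lemma B_pow {B : R → C → ℤ} {σ : Equiv.Perm R} {γ : Equiv.Perm C}
    (hB : ∀ r c, B (σ r) c = B r (γ c)) (m : ℕ) (r : R) (c : C) :
    B ((σ ^ m) r) c = B r ((γ ^ m) c) := by
  induction m generalizing c with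
  | zero => simp
  | succ m ih =>
    rw [pow_succ', Equiv.Perm.mul_apply, hB, ih, pow_succ, Equiv.Perm.mul_apply]

omit [Fintype R] [Fintype C] [DecidableEq R] [DecidableEq C] in
lemma Ph_shift {σ : Equiv.Perm R} {γ : Equiv.Perm C}
    (hB : ∀ r c, B (σ r) c = B r (γ c)) {ζ : ℂ} {s : ℕ} (hζ : ζ ^ s = 1) {r : R}
    (hr : (σ ^ s) r = r) (c : C) : ζ * Ph B σ ζ s r (γ c) = Ph B σ ζ s r c := by
  unfold Ph
  rw [Finset.mul_sum]
  have h1 : ∀ m ∈ range s, ζ * (ζ ^ m * (B ((σ ^ m) r) (γ c) : ℂ)) =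
      ζ ^ (m + 1) * (B ((σ ^ (m + 1)) r) c : ℂ) := by
    intro m _
    rw [pow_succ' σ, Equiv.Perm.mul_apply, hB]
    ring
  rw [Finset.sum_congr rfl h1]
  have h2 := Finset.sum_range_succ' (fun m => ζ ^ m * (B ((σ ^ m) r) c : ℂ)) s
  rw [Finset.sum_range_succ, hζ, hr, pow_zero, pow_zero] at h2
  exact (add_right_cancel h2).symm

omit [Fintype R] [Fintype C] [DecidableEq R] [DecidableEq C] in
lemma Ph_shift_pow {σ : Equiv.Perm R} {γ : Equiv.Perm C}
    (hB : ∀ r c, B (σ r) c = B r (γ c)) {ζ : ℂ} {s : ℕ} (hζ : ζ ^ s = 1) {r : R}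
    (hr : (σ ^ s) r = r) (c : C) (m : ℕ) : ζ ^ m * Ph B σ ζ s r ((γ ^ m) c) = Ph B σ ζ s r c := by
  induction m with
  | zero => simp
  | succ m ih =>
    rw [pow_succ, mul_assoc, pow_succ', Equiv.Perm.mul_apply, Ph_shift hB hζ hr, ih]

lemma Ph_gram (h : Sys B n f) {σ : Equiv.Perm R} {ζ : ℂ}
    {I : Type} [DecidableEq I] {rep : I → R} {s : I → ℕ}
    (hs : ∀ i, ∑ m ∈ range (s i), ζ ^ m = 0) (hn : ζ * (starRingEnd ℂ) ζ = 1)
    (hr : ∀ i i' : I, ∀ m ∈ range (s i), ∀ m' ∈ range (s i'),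
      ((σ ^ m) (rep i) = (σ ^ m') (rep i') ↔ i = i' ∧ m = m')) (i i' : I) :
    ∑ c, Ph B σ ζ (s i) (rep i) c * (starRingEnd ℂ) (Ph B σ ζ (s i') (rep i') c) =
      if i = i' then (s i : ℂ) * n else 0 := by
  have h1 : ∀ c, Ph B σ ζ (s i) (rep i) c * (starRingEnd ℂ) (Ph B σ ζ (s i') (rep i') c) =
      ∑ m ∈ range (s i), ∑ m' ∈ range (s i'), ζ ^ m * (starRingEnd ℂ) ζ ^ m' *
        ((B ((σ ^ m) (rep i)) c : ℂ) * (B ((σ ^ m') (rep i')) c : ℂ)) := by
    intro c
    unfold Ph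
    rw [map_sum, Finset.sum_mul_sum]
    refine Finset.sum_congr rfl fun m _ => Finset.sum_congr rfl fun m' _ => ?_
    rw [map_mul, map_pow, map_intCast]
    ring
  simp_rw [h1]
  rw [Finset.sum_comm]
  have h2 : ∀ m ∈ range (s i), ∑ c, ∑ m' ∈ range (s i'), ζ ^ m * (starRingEnd ℂ) ζ ^ m' *
        ((B ((σ ^ m) (rep i)) c : ℂ) * (B ((σ ^ m') (rep i')) c : ℂ)) =
      ∑ m' ∈ range (s i'), ζ ^ m * (starRingEnd ℂ) ζ ^ m' *
        ((if i = i' ∧ m = m' then (n : ℂ) else 0) + f) := by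
    intro m hm
    rw [Finset.sum_comm]
    refine Finset.sum_congr rfl fun m' hm' => ?_
    rw [← Finset.mul_sum]
    congr 1
    have h3 := h.rows ((σ ^ m) (rep i)) ((σ ^ m') (rep i'))
    have h4 := congrArg (fun x : ℤ => (x : ℂ)) h3
    simp only [hr i i' m hm m' hm', Int.cast_sum, Int.cast_mul, Int.cast_add, Int.cast_ite,
      Int.cast_zero] at h4
    exact h4
  rw [Finset.sum_congr rfl h2]
  simp_rw [mul_add, Finset.sum_add_distrib]
  have h5 : ∑ m ∈ range (s i), ∑ m' ∈ range (s i'), ζ ^ m * (starRingEnd ℂ) ζ ^ m' * (f : ℂ) =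
      0 := by
    have : ∀ m ∈ range (s i), ∑ m' ∈ range (s i'), ζ ^ m * (starRingEnd ℂ) ζ ^ m' * (f : ℂ) =
        ζ ^ m * ((∑ m' ∈ range (s i'), (starRingEnd ℂ) ζ ^ m') * f) := by
      intro m _
      rw [Finset.sum_mul, Finset.mul_sum]
      refine Finset.sum_congr rfl fun m' _ => ?_
      ring
    rw [Finset.sum_congr rfl this, ← Finset.sum_mul, hs, zero_mul]
  rw [h5, add_zero]
  by_cases hi : i = i'
  · subst hi
    rw [if_pos rfl]
    have h6 : ∀ m ∈ range (s i), ∑ m' ∈ range (s i), ζ ^ m * (starRingEnd ℂ) ζ ^ m' *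
        (if i = i ∧ m = m' then (n : ℂ) else 0) = n := by
      intro m hm
      rw [Finset.sum_eq_single_of_mem m hm]
      · rw [if_pos ⟨rfl, rfl⟩, ← mul_pow, hn, one_pow, one_mul]
      · intro m' _ hne
        rw [if_neg (fun hh => hne hh.2.symm), mul_zero]
    rw [Finset.sum_congr rfl h6, Finset.sum_const, Finset.card_range, nsmul_eq_mul]
  · rw [if_neg hi]
    refine Finset.sum_eq_zero fun m _ => Finset.sum_eq_zero fun m' _ => ?_
    rw [if_neg (fun hh => hi hh.1), mul_zero]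

lemma beta_gram (h : Sys B n f) {σ : Equiv.Perm R} {γ : Equiv.Perm C}
    (hB : ∀ r c, B (σ r) c = B r (γ c)) {ζ : ℂ}
    (hn : ζ * (starRingEnd ℂ) ζ = 1)
    {I J : Type} [Fintype I] [Fintype J] [DecidableEq I] [DecidableEq J]
    {rep : I → R} {rep' : J → C} {s : I → ℕ} {t : J → ℕ}
    (hs : ∀ i, ∑ m ∈ range (s i), ζ ^ m = 0) (hζs : ∀ i, ζ ^ s i = 1)
    (hss : ∀ i, (σ ^ s i) (rep i) = rep i)
    (e : (Σ i : I, Fin (s i)) ≃ R) (he : ∀ y, e y = (σ ^ (y.2 : ℕ)) (rep y.1))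
    (e' : (Σ j : J, Fin (t j)) ≃ C) (he' : ∀ y, e' y = (γ ^ (y.2 : ℕ)) (rep' y.1)) :
    (Matrix.of fun (i : I) (j : J) => Ph B σ ζ (s i) (rep i) (rep' j)) *
      Matrix.diagonal (fun j : J => (t j : ℂ)) *
      (Matrix.of fun (i : I) (j : J) => Ph B σ ζ (s i) (rep i) (rep' j)).conjTranspose =
      Matrix.diagonal (fun i : I => (s i : ℂ) * n) := by
  have hr : ∀ i i' : I, ∀ m ∈ range (s i), ∀ m' ∈ range (s i'),
      ((σ ^ m) (rep i) = (σ ^ m') (rep i') ↔ i = i' ∧ m = m') := by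
    intro i i' m hm m' hm'
    rw [Finset.mem_range] at hm hm'
    constructor
    · intro hh
      have h1 : e ⟨i, ⟨m, hm⟩⟩ = e ⟨i', ⟨m', hm'⟩⟩ := by
        rw [he, he]
        exact hh
      have h2 := e.injective h1
      have h3 : i = i' := congrArg Sigma.fst h2
      subst h3
      have h4 := eq_of_heq (Sigma.mk.inj_iff.1 h2).2
      exact ⟨rfl, congrArg Fin.val h4⟩
    · rintro ⟨rfl, rfl⟩
      rfl
  ext i i'
  rw [Matrix.mul_apply]
  simp only [Matrix.mul_diagonal, Matrix.of_apply, Matrix.conjTranspose_apply,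
    Matrix.diagonal_apply]
  have h1 := Ph_gram h hs hn hr i i'
  rw [← e'.sum_comp, Fintype.sum_sigma] at h1
  have h3 : ∀ j : J, ∑ m : Fin (t j), Ph B σ ζ (s i) (rep i) (e' ⟨j, m⟩) *
      (starRingEnd ℂ) (Ph B σ ζ (s i') (rep i') (e' ⟨j, m⟩)) =
      t j * (Ph B σ ζ (s i) (rep i) (rep' j) *
        (starRingEnd ℂ) (Ph B σ ζ (s i') (rep i') (rep' j))) := by
    intro j
    have h4 : ∀ m : Fin (t j), Ph B σ ζ (s i) (rep i) (e' ⟨j, m⟩) *
      (starRingEnd ℂ) (Ph B σ ζ (s i') (rep i') (e' ⟨j, m⟩)) =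
      Ph B σ ζ (s i) (rep i) (rep' j) * (starRingEnd ℂ) (Ph B σ ζ (s i') (rep i') (rep' j)) := by
      intro m
      rw [he']
      simp only
      rw [← Ph_shift_pow hB (hζs i) (hss i) (rep' j) m, ← Ph_shift_pow hB (hζs i') (hss i') (rep' j) m,
        map_mul, map_pow]
      have h5 : ζ ^ (m : ℕ) * (starRingEnd ℂ) ζ ^ (m : ℕ) = 1 := by
        rw [← mul_pow, hn, one_pow]
      linear_combination (-(Ph B σ ζ (s i) (rep i) ((γ ^ (m : ℕ)) (rep' j)) *
        (starRingEnd ℂ) (Ph B σ ζ (s i') (rep i') ((γ ^ (m : ℕ)) (rep' j))))) * h5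
    rw [Finset.sum_congr rfl fun m _ => h4 m, Finset.sum_const, Finset.card_univ,
      Fintype.card_fin, nsmul_eq_mul]
  rw [Finset.sum_congr rfl fun j _ => h3 j] at h1
  rw [← h1]
  refine Finset.sum_congr rfl fun j _ => ?_
  change _ * star _ = _ * (_ * star _)
  ring

lemma cycles_le (h : Sys B n f) {σ : Equiv.Perm R} {γ : Equiv.Perm C}
    (hB : ∀ r c, B (σ r) c = B r (γ c)) {ζ : ℂ}
    (hn : ζ * (starRingEnd ℂ) ζ = 1)
    {I J : Type} [Fintype I] [Fintype J] [DecidableEq I] [DecidableEq J]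
    {rep : I → R} {rep' : J → C} {s : I → ℕ} {t : J → ℕ} (hs0 : ∀ i, s i ≠ 0)
    (hs : ∀ i, ∑ m ∈ range (s i), ζ ^ m = 0) (hζs : ∀ i, ζ ^ s i = 1)
    (hss : ∀ i, (σ ^ s i) (rep i) = rep i)
    (e : (Σ i : I, Fin (s i)) ≃ R) (he : ∀ y, e y = (σ ^ (y.2 : ℕ)) (rep y.1))
    (e' : (Σ j : J, Fin (t j)) ≃ C) (he' : ∀ y, e' y = (γ ^ (y.2 : ℕ)) (rep' y.1)) :
    Fintype.card I ≤ Fintype.card J := by
  have hg := beta_gram h hB hn hs hζs hss e he e' he'
  have hn0 : (n : ℂ) ≠ 0 := by exact_mod_cast h.npos.ne'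
  set β := (Matrix.of fun (i : I) (j : J) => Ph B σ ζ (s i) (rep i) (rep' j)) with hβ
  have hdd : Matrix.diagonal (fun i : I => (s i : ℂ) * n) *
      Matrix.diagonal (fun i : I => ((s i : ℂ) * n)⁻¹) = 1 := by
    rw [Matrix.diagonal_mul_diagonal, ← Matrix.diagonal_one]
    congr 1
    funext i
    have : (s i : ℂ) ≠ 0 := by exact_mod_cast hs0 i
    exact mul_inv_cancel₀ (mul_ne_zero this hn0)
  have h1 : β * (Matrix.diagonal (fun j : J => (t j : ℂ)) * β.conjTranspose *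
      Matrix.diagonal (fun i : I => ((s i : ℂ) * n)⁻¹)) = 1 := by
    rw [← hdd, ← hg]
    simp only [Matrix.mul_assoc]
  have h2 := Matrix.rank_mul_le_left β (Matrix.diagonal (fun j : J => (t j : ℂ)) *
    β.conjTranspose * Matrix.diagonal (fun i : I => ((s i : ℂ) * n)⁻¹))
  rw [h1, Matrix.rank_one] at h2
  exact h2.trans (Matrix.rank_le_card_width β)

theorem even_card (h : Sys B n f) (ρ : Equiv.Perm R) (γ : Equiv.Perm C)
    (hB : ∀ r c, B (ρ r) (γ c) = B r c) {q k : ℕ} (hq : q.Prime) (hq2 : 2 < q)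
    (hρ : ρ ^ (q ^ k) = 1) (hγ : γ ^ (q ^ k) = 1) (hρf : ∀ r, ρ r ≠ r) (hγf : ∀ c, γ c ≠ c)
    {p j : ℕ} (hp : p.Prime) (hj : q ∣ p ^ j + 1)
    (hn : Odd (padicValNat p n.toNat)) : Even (Fintype.card R) := by
  classical
  set σ : Equiv.Perm R := ρ⁻¹ with hσdef
  have hσ : σ ^ (q ^ k) = 1 := by rw [hσdef, inv_pow, hρ, inv_one]
  have hB1 : ∀ r c, B (σ r) c = B r (γ c) := by
    intro r c
    have h1 := hB (σ r) c
    have h2 : ρ (σ r) = r := by
      rw [hσdef, ← Equiv.Perm.mul_apply, mul_inv_cancel, Equiv.Perm.one_apply]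
    rw [h2] at h1
    exact h1.symm
  have hσf : ∀ r, σ r ≠ r := by
    intro r hr
    apply hρf r
    have h2 : ρ (σ r) = r := by
      rw [hσdef, ← Equiv.Perm.mul_apply, mul_inv_cancel, Equiv.Perm.one_apply]
    rw [hr] at h2
    exact h2
  obtain ⟨I, _, _, rep, s, e, he, hss, hsa⟩ := exists_cycles σ hq hσ hσf
  obtain ⟨J, _, _, rep', t, e', he', htt, hta⟩ := exists_cycles γ hq hγ hγf
  have hprim := Complex.isPrimitiveRoot_exp q hq.ne_zero
  set ζ := Complex.exp (2 * Real.pi * Complex.I / q) with hζdef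
  have hζ : ζ ^ q = 1 := hprim.pow_eq_one
  have hnn : ζ * (starRingEnd ℂ) ζ = 1 := by
    rw [conj_eq_inv hq.pos hζ]
    exact mul_inv_cancel₀ (hprim.ne_zero hq.ne_zero)
  have hζa : ∀ a : ℕ, ζ ^ (q ^ (a + 1)) = 1 := by
    intro a
    rw [pow_succ', pow_mul, hζ, one_pow]
  have hζ1 : ζ ≠ 1 := hprim.ne_one hq.one_lt
  have hsum : ∀ a : ℕ, ∑ m ∈ range (q ^ (a + 1)), ζ ^ m = 0 := by
    intro a
    have h1 := mul_geom_sum ζ (q ^ (a + 1))
    rw [hζa, sub_self] at h1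
    exact (mul_eq_zero.1 h1).resolve_left (sub_ne_zero.2 hζ1)
  have hs0 : ∀ i, s i ≠ 0 := by
    intro i
    obtain ⟨a, ha⟩ := hsa i
    rw [ha]
    exact pow_ne_zero _ hq.ne_zero
  have ht0 : ∀ j, t j ≠ 0 := by
    intro j
    obtain ⟨a, ha⟩ := hta j
    rw [ha]
    exact pow_ne_zero _ hq.ne_zero
  have hssum : ∀ i, ∑ m ∈ range (s i), ζ ^ m = 0 := by
    intro i
    obtain ⟨a, ha⟩ := hsa i
    rw [ha]
    exact hsum a
  have htsum : ∀ i, ∑ m ∈ range (t i), ζ ^ m = 0 := by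
    intro i
    obtain ⟨a, ha⟩ := hta i
    rw [ha]
    exact hsum a
  have hsζ : ∀ i, ζ ^ s i = 1 := by
    intro i
    obtain ⟨a, ha⟩ := hsa i
    rw [ha]
    exact hζa a
  have htζ : ∀ i, ζ ^ t i = 1 := by
    intro i
    obtain ⟨a, ha⟩ := hta i
    rw [ha]
    exact hζa a
  have hsymm : Sys (fun c r => B r c) n f :=
    ⟨h.npos, h.fnn, h.cols, h.rows⟩
  have hIJ : Fintype.card I ≤ Fintype.card J :=
    cycles_le h hB1 hnn hs0 hssum hsζ hss e he e' he'
  have hJI : Fintype.card J ≤ Fintype.card I := by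
    refine cycles_le (B := fun c r => B r c) hsymm (σ := γ) (γ := σ) ?_ hnn ht0 htsum htζ htt
      e' he' e he
    intro c r
    exact (hB1 r c).symm
  have hcard : Fintype.card I = Fintype.card J := le_antisymm hIJ hJI
  have hg := beta_gram h hB1 hnn hssum hsζ hss e he e' he'
  set β := (Matrix.of fun (i : I) (j : J) => Ph B σ ζ (s i) (rep i) (rep' j)) with hβ
  let u : I ≃ J := Fintype.equivOfCardEq hcard
  set M : Matrix I I ℂ := β.submatrix id u with hM
  have hMM : M * Matrix.diagonal (fun i : I => (t (u i) : ℂ)) * M.conjTranspose =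
      Matrix.diagonal (fun i : I => (s i : ℂ) * n) := by
    rw [← hg]
    ext i i'
    rw [Matrix.mul_apply, Matrix.mul_apply, ← u.sum_comp]
    refine Finset.sum_congr rfl fun x _ => ?_
    rw [Matrix.mul_diagonal, Matrix.mul_diagonal]
    rfl
  set A : ℕ := ∏ i : I, t (u i) with hA
  set A' : ℕ := ∏ i : I, s i with hA'
  have hdet : ((A : ℂ) * M.det) * (starRingEnd ℂ) ((A : ℂ) * M.det) =
      ((A * A' * n.toNat ^ Fintype.card I : ℕ) : ℂ) := by
    have h1 := congrArg Matrix.det hMM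
    rw [Matrix.det_mul, Matrix.det_mul, Matrix.det_conjTranspose, Matrix.det_diagonal,
      Matrix.det_diagonal, Finset.prod_mul_distrib, Finset.prod_const, Finset.card_univ] at h1
    have h2 : ((n.toNat : ℕ) : ℂ) = (n : ℂ) := by
      have := Int.toNat_of_nonneg h.npos.le
      exact_mod_cast congrArg (fun x : ℤ => (x : ℂ)) this
    have h3 : (∏ i : I, (t (u i) : ℂ)) = (A : ℂ) := by rw [hA]; push_cast; rfl
    have h4 : (∏ i : I, (s i : ℂ)) = (A' : ℂ) := by rw [hA']; push_cast; rfl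
    rw [h3, h4] at h1
    rw [map_mul, Complex.conj_natCast, Nat.cast_mul, Nat.cast_mul, Nat.cast_pow, h2]
    change M.det * A * (starRingEnd ℂ) M.det = _ at h1
    linear_combination (A : ℂ) * h1
  have hmem : (A : ℂ) * M.det ∈ Zz ζ := by
    refine (Zz ζ).mul_mem (natCast_mem (Zz ζ) _) ?_
    rw [Matrix.det_apply]
    refine Subring.sum_mem _ fun τ _ => ?_
    have h1 : ∏ i, M (τ i) i ∈ Zz ζ := by
      refine Subring.prod_mem _ fun i _ => ?_
      change Ph B σ ζ (s (τ i)) (rep (τ i)) (rep' (u i)) ∈ Zz ζ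
      refine Subring.sum_mem _ fun m _ => ?_
      exact (Zz ζ).mul_mem ((Zz ζ).pow_mem (self_mem_Zz ζ) m) (intCast_mem (Zz ζ) _)
    rw [Units.smul_def]
    exact (Zz ζ).zsmul_mem h1 _
  have hpos : 0 < n.toNat := by
    have := h.npos
    omega
  have hA0 : 0 < A := Finset.prod_pos fun i _ => Nat.pos_of_ne_zero (ht0 _)
  have hA0' : 0 < A' := Finset.prod_pos fun i _ => Nat.pos_of_ne_zero (hs0 _)
  have hev := even_val hq2 hζ hp hj _ (Nat.mul_pos (Nat.mul_pos hA0 hA0') (pow_pos hpos _)) _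
    hmem hdet
  have : Fact p.Prime := ⟨hp⟩
  have hpq : p ≠ q := by
    rintro rfl
    rcases j with _ | j
    · rw [pow_zero] at hj
      have := Nat.le_of_dvd (by norm_num) hj
      omega
    · have h1 : p ∣ p ^ (j + 1) := dvd_pow_self p (Nat.succ_ne_zero j)
      have h2 : p ∣ 1 := (Nat.dvd_add_right h1).1 hj
      exact hp.one_lt.ne' (Nat.dvd_one.1 h2)
  have hndvd : ∀ a : ℕ, ¬ p ∣ q ^ a := by
    intro a hd
    exact hpq ((Nat.prime_dvd_prime_iff_eq hp hq).1 (hp.dvd_of_dvd_pow hd))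
  have hAn : ¬ p ∣ A := by
    rw [hA, hp.prime.dvd_finsetProd_iff]
    rintro ⟨i, -, hi⟩
    obtain ⟨a, ha⟩ := hta (u i)
    rw [ha] at hi
    exact hndvd _ hi
  have hAn' : ¬ p ∣ A' := by
    rw [hA', hp.prime.dvd_finsetProd_iff]
    rintro ⟨i, -, hi⟩
    obtain ⟨a, ha⟩ := hsa i
    rw [ha] at hi
    exact hndvd _ hi
  rw [padicValNat.mul (Nat.mul_pos hA0 hA0').ne' (pow_pos hpos _).ne',
    padicValNat.mul hA0.ne' hA0'.ne', padicValNat.eq_zero_of_not_dvd hAn,
    padicValNat.eq_zero_of_not_dvd hAn', zero_add, zero_add, padicValNat.pow] at hev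
  have hI : Even (Fintype.card I) := by
    rcases Nat.even_mul.1 hev with h1 | h1
    · exact h1
    · exact absurd h1 (Nat.not_even_iff_odd.2 hn)
  have hc : Fintype.card R = ∑ i : I, s i := by
    rw [← Fintype.card_congr e, Fintype.card_sigma]
    simp
  have hodd : ∀ i, Odd (s i) := by
    intro i
    obtain ⟨a, ha⟩ := hsa i
    rw [ha]
    exact (hq.odd_of_ne_two (by omega)).pow
  rw [hc, Finset.even_sum_iff_even_card_odd]
  have : (univ.filter fun i : I => Odd (s i)) = univ := by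
    ext i
    simp [hodd i]
  rw [this, Finset.card_univ]
  exact hI

end Pool.Agent.H10.FP
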