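import Pool.Agent.H10.FP.EvenCard
import Pool.Agent.H12.ST.Pln
import Pool.Agent.H80.FP.Defs

set_option autoImplicit false

/-!
Project FP, module PAR: the parity condition for planes with a collineation of prime power order
without fixed points.
-/

namespace Pool.Agent.H80.FP

open Finset Configuration Pool.Agent.H12.ST

private lemma mem_pow {P L : Type} [Membership P L] {f : Equiv.Perm P} {g : Equiv.Perm L}
    (h : ∀ (p : P) (l : L), f p ∈ g l ↔ p ∈ l) (m : ℕ) (p : P) (l : L) :
    (f ^ m) p ∈ (g ^ m) l ↔ p ∈ l := by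
  induction m generalizing p l with
  | zero => simp
  | succ m ih =>
    rw [pow_succ', pow_succ', Equiv.Perm.mul_apply, Equiv.Perm.mul_apply, h, ih]

private lemma dvd_card_of_free {X : Type} [Fintype X] (σ : Equiv.Perm X) {q k : ℕ}
    (hq : q.Prime) (hσ : σ ^ (q ^ k) = 1) (hfix : ∀ x, σ x ≠ x) : q ∣ Fintype.card X := by
  classical
  obtain ⟨I, _, _, rep, s, e, -, -, hs⟩ := Pool.Agent.H10.FP.exists_cycles σ hq hσ hfix
  rw [← Fintype.card_congr e, Fintype.card_sigma]
  refine Finset.dvd_sum fun i _ => ?_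
  obtain ⟨a, ha⟩ := hs i
  rw [Fintype.card_fin, ha, pow_succ]
  exact Dvd.intro_left _ rfl

theorem par {n : ℕ} (h : HasFree n) : ∃ q : ℕ, q.Prime ∧ q ∣ n ^ 2 + n + 1 ∧
    ∀ p : ℕ, p.Prime → Odd (padicValNat p n) → Odd (orderOf (p : ZMod q)) := by
  classical
  obtain ⟨P, L, _, _, _, _, hn, f, g, q, k, hq, hf, hmem, hfix⟩ := h
  have := Fintype.ofFinite P
  have := Fintype.ofFinite L
  have hsys := inc_sys P L
  rw [hn] at hsys
  have hcard : Fintype.card P = n ^ 2 + n + 1 := by
    rw [ProjectivePlane.card_points P L, hn]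
  have hg : g ^ (q ^ k) = 1 := by
    ext l
    rw [Equiv.Perm.one_apply]
    refine line_ext (P := P) fun p => ?_
    have h1 := mem_pow hmem (q ^ k) p l
    rw [hf, Equiv.Perm.one_apply] at h1
    exact h1
  have hinv : ∀ p l, inc P L (f p) (g l) = inc P L p l := by
    intro p l
    unfold inc
    by_cases h : p ∈ l
    · rw [if_pos h, if_pos ((hmem p l).2 h)]
    · rw [if_neg h, if_neg (fun h2 => h ((hmem p l).1 h2))]
  have hgfix : ∀ l, g l ≠ l := by
    have h1 := hsys.fix_eq f g hinv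
    have h2 : IsEmpty {p : P // f p = p} := ⟨fun x => hfix x.1 x.2⟩
    rw [Fintype.card_eq_zero_iff.2 h2, eq_comm, Fintype.card_eq_zero_iff] at h1
    intro l hl
    exact h1.false ⟨l, hl⟩
  have hqd : q ∣ n ^ 2 + n + 1 := by
    rw [← hcard]
    exact dvd_card_of_free f hq hf hfix
  have hodd : Odd (n ^ 2 + n + 1) := by
    have : Even (n ^ 2 + n) := by
      have : n ^ 2 + n = n * (n + 1) := by ring
      rw [this]; exact Nat.even_mul_succ_self n
    exact this.add_one
  refine ⟨q, hq, hqd, fun p hp hpn => ?_⟩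
  have : Fact q.Prime := ⟨hq⟩
  have : Fact p.Prime := ⟨hp⟩
  have hpd : p ∣ n := by
    by_contra hcon
    rw [padicValNat.eq_zero_of_not_dvd hcon] at hpn
    exact absurd hpn (by decide)
  have hq2 : 2 < q := by
    rcases hq.eq_two_or_odd' with rfl | h2
    · exact absurd (hodd) (Nat.not_odd_iff_even.2 (even_iff_two_dvd.2 hqd))
    · have := hq.two_le
      have : q ≠ 2 := by rintro rfl; exact absurd h2 (by decide)
      omega
  by_contra hcon
  rw [Nat.not_odd_iff_even] at hcon
  have hp0 : (p : ZMod q) ≠ 0 := by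
    rw [Ne, ZMod.natCast_eq_zero_iff]
    intro h1
    have h2 : q ∣ n := h1.trans hpd
    have h3 : q ∣ 1 := by
      have h4 : q ∣ n ^ 2 + n := by
        have : n ^ 2 + n = n * (n + 1) := by ring
        rw [this]; exact Dvd.dvd.mul_right h2 _
      exact (Nat.dvd_add_right h4).1 hqd
    exact hq.one_lt.ne' (Nat.dvd_one.1 h3)
  have hpos : 0 < orderOf (p : ZMod q) := by
    have h1 : (p : ZMod q) ^ (q - 1) = 1 := ZMod.pow_card_sub_one_eq_one hp0
    rw [orderOf_pos_iff]
    exact isOfFinOrder_iff_pow_eq_one.2 ⟨q - 1, by omega, h1⟩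
  obtain ⟨j, hj⟩ := hcon
  have hj0 : 0 < j := by omega
  have h1 : ((p : ZMod q) ^ j) ^ 2 = 1 := by
    rw [← pow_mul, mul_two, ← hj]; exact pow_orderOf_eq_one _
  have h2 : (p : ZMod q) ^ j ≠ 1 := by
    intro h3
    have := Nat.le_of_dvd hj0 (orderOf_dvd_of_pow_eq_one h3)
    omega
  have h3 : (p : ZMod q) ^ j = -1 := by
    rcases sq_eq_one_iff_zmod h1 with h | h
    · exact absurd h h2
    · exact h
  have hjd : q ∣ p ^ j + 1 := by
    rw [← ZMod.natCast_eq_zero_iff]
    push_cast
    rw [h3]; ring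
  have h4 := Pool.Agent.H10.FP.even_card hsys f g hinv hq hq2 hf hg hfix hgfix hp hjd
    (by simpa using hpn)
  rw [hcard] at h4
  exact absurd hodd (Nat.not_odd_iff_even.2 h4)

end Pool.Agent.H80.FP
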